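import Pool.Agent.W152.CF.Stm2

/-!
# Bookkeeping for the iteration: the parameters
-/

set_option autoImplicit false
set_option linter.unusedSectionVars false
set_option linter.deprecated false

namespace Pool.Agent.W152.CF

open Pool.Agent.W684.CF

/-- the data of one index of a partial slalom: a name, a Cohen coordinate, a name -/
abbrev Dat (K Ω Λ : Type) : Type := NmI K Ω Λ × (Ω × Λ) × NmI K Ω Λ

variable {K Ω Λ : Type} [LinearOrder K] [WellFoundedLT K] [LinearOrder Ω] [WellFoundedLT Ω]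

open Classical in
/-- the restriction of the data -/
noncomputable def rst (d₀ : Dat K Ω Λ) (D : K → Dat K Ω Λ) (k : K) : K → Dat K Ω Λ :=
  fun k' => if k' < k then D k' else d₀

/-- the data are admissible for a partial slalom of rank `β` -/
structure Valid (d₀ : Dat K Ω Λ) (code : Option K × (K → Dat K Ω Λ) → Λ) (β : Ω)
    (D : K → Dat K Ω Λ) : Prop where
  mono : ∀ k k', k < k' → (D k).2.1.1 < (D k').2.1.1
  lt : ∀ k, (D k).2.1.1 < β
  cofinal : ∀ ξ, ξ < β → ∃ k, ξ ≤ (D k).2.1.1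
  sx : ∀ k k', Supp {i : Ix Ω Λ | Ix.rk i < ((D k').2.1.1 : WithBot Ω)} (D k).1
  se : ∀ k, Supp {i : Ix Ω Λ | Ix.rk i < (β : WithBot Ω)} (D k).2.2
  cd : ∀ k, (D k).2.1.2 = code (some k, rst d₀ D k)

open Classical in
/-- the requirements -/
noncomputable def reqB (d₀ : Dat K Ω Λ) (e : Λ → NmI K Ω Λ)
    (code : Option K × (K → Dat K Ω Λ) → Λ) :
    Ix Ω Λ → Λ ⊕ K → Option (NmI K Ω Λ × Option (Ix Ω Λ × NmI K Ω Λ))
  | .lz _, _ => none
  | .co _ _, _ => none
  | .dm β, .inl a =>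
      if Supp {i : Ix Ω Λ | Ix.rk i < (β : WithBot Ω)} (e a) then some (e a, none) else none
  | .dm _, .inr _ => none
  | .sl _ _, .inl _ => none
  | .sl β a, .inr k =>
      if h : ∃ D : K → Dat K Ω Λ, code (none, D) = a ∧ Valid d₀ code β D then
        some ((h.choose k).1, some (Ix.co (h.choose k).2.1.1 (h.choose k).2.1.2,
          (h.choose k).2.2)) else none

section

variable {d₀ : Dat K Ω Λ} {e : Λ → NmI K Ω Λ} {code : Option K × (K → Dat K Ω Λ) → Λ}

theorem req_none {j : Ix Ω Λ} {k : Λ ⊕ K} {x : NmI K Ω Λ}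
    (h : reqB d₀ e code j k = some (x, none)) :
    ∃ β, j = .dm β ∧ Supp {i : Ix Ω Λ | Ix.rk i < (β : WithBot Ω)} x := by
  rcases j with l | ⟨β, a⟩ | ⟨β, a⟩ | β
  · simp [reqB] at h
  · simp [reqB] at h
  · rcases k with b | k
    · simp [reqB] at h
    · simp only [reqB] at h
      split_ifs at h with h1
      simp at h
  · rcases k with b | k
    · simp only [reqB] at h
      split_ifs at h with h1
      simp only [Option.some.injEq, Prod.mk.injEq, and_true] at h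
      exact ⟨β, rfl, h ▸ h1⟩
    · simp [reqB] at h

theorem req_some {j : Ix Ω Λ} {m : Λ ⊕ K} {x : NmI K Ω Λ} {c : Ix Ω Λ} {ε : NmI K Ω Λ}
    (h : reqB d₀ e code j m = some (x, some (c, ε))) :
    ∃ β D k, j = .sl β (code (none, D)) ∧ m = .inr k ∧ Valid d₀ code β D ∧ x = (D k).1 ∧
      c = .co (D k).2.1.1 (D k).2.1.2 ∧ ε = (D k).2.2 := by
  rcases j with l | ⟨β, a⟩ | ⟨β, a⟩ | β
  · simp [reqB] at h
  · simp [reqB] at h
  · rcases m with b | k
    · simp [reqB] at h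
    · simp only [reqB] at h
      split_ifs at h with h1
      simp only [Option.some.injEq, Prod.mk.injEq] at h
      obtain ⟨h2, h3, h4⟩ := h
      refine ⟨β, h1.choose, k, ?_, rfl, h1.choose_spec.2, h2.symm, h3.symm, h4.symm⟩
      rw [h1.choose_spec.1]
  · rcases m with b | k
    · simp only [reqB] at h
      split_ifs at h with h1
      simp at h
    · simp [reqB] at h

theorem req_valid (hcode : Function.Injective code) {β : Ω} {D : K → Dat K Ω Λ}
    (h : Valid d₀ code β D) (k : K) :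
    reqB d₀ e code (.sl β (code (none, D))) (.inr k) =
      some ((D k).1, some (Ix.co (D k).2.1.1 (D k).2.1.2, (D k).2.2)) := by
  have h1 : ∃ D' : K → Dat K Ω Λ, code (none, D') = code (none, D) ∧ Valid d₀ code β D' :=
    ⟨D, rfl, h⟩
  have h2 : h1.choose = D := by
    have := hcode h1.choose_spec.1
    exact (Prod.mk.inj this).2
  simp only [reqB]
  rw [dif_pos h1, h2]

/-- the parameters -/
noncomputable def GB (d₀ : Dat K Ω Λ) (e : Λ → NmI K Ω Λ)
    (code : Option K × (K → Dat K Ω Λ) → Λ) :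
    Par (Λ ⊕ K) (WithBot Ω) (Ix.rs (Ω := Ω) (Λ := Λ)) :=
  ⟨Ix.rk, reqB d₀ e code⟩

theorem Valid.lt_of {β : Ω} {D : K → Dat K Ω Λ} (h : Valid d₀ code β D) {k k' : K}
    (hk : (D k).2.1.1 < (D k').2.1.1) : k < k' := by
  rcases lt_trichotomy k k' with h1 | rfl | h1
  · exact h1
  · exact absurd hk (lt_irrefl _)
  · exact absurd (h.mono _ _ h1) (not_lt.2 hk.le)

theorem Valid.inj {β : Ω} {D : K → Dat K Ω Λ} (h : Valid d₀ code β D) {k k' : K}
    (hk : (D k).2.1.1 = (D k').2.1.1) : k = k' := by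
  rcases lt_trichotomy k k' with h1 | rfl | h1
  · exact absurd (h.mono _ _ h1) (by rw [hk]; exact lt_irrefl _)
  · rfl
  · exact absurd (h.mono _ _ h1) (by rw [hk]; exact lt_irrefl _)

theorem good (hK1 : ∀ k : K, (Set.Iio k).Countable) (hK2 : ∀ k : K, ∃ k', k < k')
    (hcode : Function.Injective code) :
    Good (GB d₀ e code) where
  always := by
    intro j k x h
    obtain ⟨β, rfl, h1⟩ := req_none h
    exact ⟨fun h => h, h1⟩
  part := by
    intro j m x c ε h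
    obtain ⟨β, D, k, rfl, rfl, hv, rfl, rfl, rfl⟩ := req_some h
    refine ⟨trivial, ?_, ?_, fun h => h, fun m' => ?_, ?_, ?_⟩
    · exact WithBot.coe_lt_coe.2 (hv.lt k)
    · exact WithBot.bot_lt_coe _
    · rfl
    · refine (hv.sx k k).mono fun i hi => ?_
      exact lt_trans hi (WithBot.coe_lt_coe.2 (hv.lt k))
    · exact hv.se k
  bot := by
    intro j h
    rcases j with l | ⟨β, a⟩ | ⟨β, a⟩ | β
    · exact ⟨fun h => h, fun k => rfl⟩
    · exact absurd h (WithBot.coe_ne_bot)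
    · exact absurd h (WithBot.coe_ne_bot)
    · exact absurd h (WithBot.coe_ne_bot)
  inj := by
    intro j m m' x x' c ε ε' h h'
    obtain ⟨β, D, k, h1, rfl, hv, rfl, rfl, rfl⟩ := req_some h
    obtain ⟨β', D', k', h1', rfl, hv', rfl, h2, rfl⟩ := req_some h'
    rw [h1] at h1'
    simp only [Ix.sl.injEq] at h1'
    obtain ⟨rfl, h3⟩ := h1'
    have h4 : D = D' := (Prod.mk.inj (hcode h3)).2
    subst h4
    simp only [Ix.co.injEq] at h2
    rw [hv.inj h2.1]
  bdd := by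
    intro j ξ hξ
    by_cases hex : ∃ m x c ε, reqB d₀ e code j m = some (x, some (c, ε))
    · obtain ⟨m, x, c, ε, h⟩ := hex
      obtain ⟨β, D, k, rfl, rfl, hv, rfl, rfl, rfl⟩ := req_some h
      induction ξ using WithBot.recBotCoe with
      | bot =>
        refine Set.Countable.mono (s₂ := ∅) ?_ Set.countable_empty
        rintro m ⟨x, c, ε, _, h2⟩
        exact absurd h2 not_lt_bot
      | coe ξ =>
        obtain ⟨k₀, hk₀⟩ := hv.cofinal ξ (WithBot.coe_lt_coe.1 hξ)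
        refine Set.Countable.mono (s₂ := Sum.inr '' Set.Iio k₀) ?_ ((hK1 k₀).image _)
        rintro m ⟨x, c, ε, h1, h2⟩
        obtain ⟨β', D', k', h1', rfl, hv', rfl, rfl, rfl⟩ := req_some h1
        simp only [Ix.sl.injEq] at h1'
        obtain ⟨rfl, h3⟩ := h1'
        have h4 : D = D' := (Prod.mk.inj (hcode h3)).2
        subst h4
        refine ⟨k', ?_, rfl⟩
        exact hv.lt_of (lt_of_lt_of_le (WithBot.coe_lt_coe.1 h2) hk₀)
    · refine Set.Countable.mono (s₂ := ∅) ?_ Set.countable_empty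
      rintro m ⟨x, c, ε, h1, _⟩
      exact absurd ⟨m, x, c, ε, h1⟩ hex
  cof := by
    intro j m x c ε h ξ hξ
    obtain ⟨β, D, k, rfl, rfl, hv, rfl, rfl, rfl⟩ := req_some h
    induction ξ using WithBot.recBotCoe with
    | bot => exact ⟨_, _, _, _, h, WithBot.bot_lt_coe _⟩
    | coe ξ =>
      obtain ⟨k₀, hk₀⟩ := hv.cofinal ξ (WithBot.coe_lt_coe.1 hξ)
      obtain ⟨k₁, hk₁⟩ := hK2 k₀
      exact ⟨.inr k₁, (D k₁).1, .co (D k₁).2.1.1 (D k₁).2.1.2, (D k₁).2.2,
        req_valid (e := e) hcode hv k₁,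
        WithBot.coe_lt_coe.2 (lt_of_le_of_lt hk₀ (hv.mono _ _ hk₁))⟩
  supp := by
    intro j m x c ε h
    obtain ⟨β, D, k, rfl, rfl, hv, rfl, rfl, rfl⟩ := req_some h
    refine ⟨((D k).2.1.1 : WithBot Ω), WithBot.coe_lt_coe.2 (hv.lt k), ?_⟩
    intro m' x' c' ε' h'
    obtain ⟨β', D', k', h1', rfl, hv', rfl, rfl, rfl⟩ := req_some h'
    simp only [Ix.sl.injEq] at h1'
    obtain ⟨rfl, h3⟩ := h1'
    have h4 : D = D' := (Prod.mk.inj (hcode h3)).2
    subst h4
    exact hv.sx k' k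
  share := by
    intro j j' hr hne
    by_cases hex : ∃ m x c ε m' x' ε', reqB d₀ e code j m = some (x, some (c, ε)) ∧
        reqB d₀ e code j' m' = some (x', some (c, ε'))
    · obtain ⟨m, x, c, ε, m', x', ε', h, h'⟩ := hex
      obtain ⟨β, D, k, rfl, rfl, hv, rfl, rfl, rfl⟩ := req_some h
      obtain ⟨β', D', k', rfl, rfl, hv', rfl, -, rfl⟩ := req_some h'
      have hβ : β = β' := WithBot.coe_injective hr
      subst hβ
      have hDD : D ≠ D' := by
        rintro rfl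
        exact hne rfl
      obtain ⟨k₀, hk₀⟩ : ∃ k₀, D k₀ ≠ D' k₀ := by
        by_contra hcon
        push Not at hcon
        exact hDD (funext hcon)
      have hic : (insert k₀ (Set.Iio k₀)).Countable := (hK1 k₀).insert k₀
      refine Set.Countable.mono (s₂ := Sum.inr '' (insert k₀ (Set.Iio k₀))) ?_ (hic.image _)
      rintro m ⟨x, c, ε, m', x', ε', h1, h2⟩
      obtain ⟨β1, D1, k1, h11, rfl, hv1, rfl, rfl, rfl⟩ := req_some h1
      obtain ⟨β2, D2, k2, h21, rfl, hv2, rfl, h22, rfl⟩ := req_some h2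
      simp only [Ix.sl.injEq] at h11 h21
      obtain ⟨rfl, h13⟩ := h11
      obtain ⟨rfl, h23⟩ := h21
      have h14 : D = D1 := (Prod.mk.inj (hcode h13)).2
      have h24 : D' = D2 := (Prod.mk.inj (hcode h23)).2
      subst h14
      subst h24
      simp only [Ix.co.injEq] at h22
      obtain ⟨_, h25⟩ := h22
      rw [hv.cd k1, hv'.cd k2] at h25
      have h26 := Prod.mk.inj (hcode h25)
      have h27 : k1 = k2 := Option.some_injective _ h26.1
      subst h27
      refine ⟨k1, ?_, rfl⟩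
      by_contra hcon
      have h28 : k₀ < k1 := by
        rcases lt_trichotomy k1 k₀ with h3 | h3 | h3
        · exact absurd (Or.inr h3) hcon
        · exact absurd (Or.inl h3) hcon
        · exact h3
      have h29 := congrFun h26.2 k₀
      simp only [rst, if_pos h28] at h29
      exact hk₀ h29
    · refine Set.Countable.mono (s₂ := ∅) ?_ Set.countable_empty
      rintro m ⟨x, c, ε, m', x', ε', h1, h2⟩
      exact absurd ⟨m, x, c, ε, m', x', ε', h1, h2⟩ hex

end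

/-! ### Bounds -/

theorem bddNat [Uncountable K] (hb : ∀ f : K → Ω, ∃ β, ∀ k, f k < β) (g : ℕ → Ω) :
    ∃ β, ∀ n, g n < β := by
  have : Infinite K := inferInstance
  let ι : ℕ ↪ K := Infinite.natEmbedding K
  obtain ⟨β, hβ⟩ := hb fun k => g (Function.invFun ι k)
  refine ⟨β, fun n => ?_⟩
  have := hβ (ι n)
  rwa [Function.leftInverse_invFun ι.injective n] at this

/-- a bound of the rank in `Ω` -/
def rkO (ω : Ω) : Ix Ω Λ → Ω
  | .lz _ => ω
  | .co β _ => β
  | .sl β _ => β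
  | .dm β => β

theorem rk_le (ω : Ω) (i : Ix Ω Λ) : Ix.rk i ≤ ((rkO ω i : Ω) : WithBot Ω) := by
  rcases i with l | ⟨β, a⟩ | ⟨β, a⟩ | β
  · exact bot_le
  · exact le_rfl
  · exact le_rfl
  · exact le_rfl

theorem supp_bdd [Uncountable K] [Nonempty Ω] (hb : ∀ f : K → Ω, ∃ β, ∀ k, f k < β)
    (x : NmI K Ω Λ) :
    ∃ β : Ω, Supp {i : Ix Ω Λ | Ix.rk i < (β : WithBot Ω)} x := by
  classical
  obtain ⟨ω⟩ := ‹Nonempty Ω›
  have h1 : ∀ nm : ℕ × ℕ, ∃ M : Ω, ∀ u v, x nm.1 nm.2 = some (u, v) → ∀ i, u i ≠ CV.top →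
      rkO ω i ≤ M := by
    rintro ⟨n, m⟩
    rcases hx : x n m with _ | ⟨u, v⟩
    · exact ⟨ω, fun u v h => by simp at h⟩
    · obtain ⟨M, hM⟩ := (u.supp.image (rkO ω)).exists_le
      refine ⟨M, fun u' v' h i hi => ?_⟩
      simp only [Option.some.injEq, Prod.mk.injEq] at h
      obtain ⟨rfl, rfl⟩ := h
      exact hM _ (Finset.mem_image_of_mem _ (Cond.mem_supp.2 hi))
  choose B hB using h1
  obtain ⟨β, hβ⟩ := bddNat hb fun n => B (Nat.unpair n)
  refine ⟨β, fun n m u v h i hi => ?_⟩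
  by_contra hcon
  apply hi
  have h2 := hB (n, m) u v h i hcon
  have h3 := hβ (Nat.pair n m)
  rw [Nat.unpair_pair] at h3
  exact lt_of_le_of_lt (rk_le ω i) (WithBot.coe_lt_coe.2 (lt_of_le_of_lt h2 h3))

/-! ### The last property -/

theorem exists_data [Uncountable K] [Nonempty Ω] (hb : ∀ f : K → Ω, ∃ β, ∀ k, f k < β)
    (hK2 : ∀ k : K, ∃ k', k < k') (d₀ : Dat K Ω Λ) (code : Option K × (K → Dat K Ω Λ) → Λ)
    (x : K → NmI K Ω Λ) (E : K → Ω × Λ → NmI K Ω Λ) :
    ∃ (β : Ω) (D : K → Dat K Ω Λ), Valid d₀ code β D ∧ ∀ k, (D k).1 = x k ∧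
      (D k).2.2 = E k (D k).2.1 := by
  classical
  choose b hbx using fun k => supp_bdd hb (x k)
  obtain ⟨γ₀, hγ₀⟩ := hb b
  have h1 : ∀ D' : K → Dat K Ω Λ, ∃ γ : Ω, γ₀ ≤ γ ∧ ∀ k', (D' k').2.1.1 < γ ∧
      Supp {i : Ix Ω Λ | Ix.rk i < (γ : WithBot Ω)} (D' k').2.2 := by
    intro D'
    choose s hs using fun k' => supp_bdd hb (D' k').2.2
    obtain ⟨γ, hγ⟩ := hb fun k' => max γ₀ (max (D' k').2.1.1 (s k'))
    obtain ⟨k1⟩ : Nonempty K := inferInstance
    refine ⟨γ, (lt_of_le_of_lt (le_max_left _ _) (hγ k1)).le, fun k' => ⟨?_, ?_⟩⟩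
    · exact lt_of_le_of_lt ((le_max_left _ _).trans (le_max_right _ _)) (hγ k')
    · have h5 : s k' < γ :=
        lt_of_le_of_lt ((le_max_right _ _).trans (le_max_right _ _)) (hγ k')
      exact Supp.mono (T := {i : Ix Ω Λ | Ix.rk i < (γ : WithBot Ω)})
        (fun i (hi : Ix.rk i < (s k' : WithBot Ω)) => lt_trans hi (WithBot.coe_lt_coe.2 h5))
        (hs k')
  choose G hG1 hG2 using h1
  let step : K → (K → Dat K Ω Λ) → Dat K Ω Λ := fun k D' =>
    (x k, (G D', code (some k, D')), E k (G D', code (some k, D')))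
  let D : K → Dat K Ω Λ := (wellFounded_lt (α := K)).fix fun k rec =>
    step k fun k' => if h : k' < k then rec k' h else d₀
  have hD : ∀ k, D k = step k (rst d₀ D k) := by
    intro k
    have h2 : D k = step k fun k' => if h : k' < k then D k' else d₀ := by
      show (wellFounded_lt (α := K)).fix _ k = _
      rw [WellFounded.fix_eq]
    rw [h2]
    congr 1
  have hrst : ∀ {k k' : K}, k < k' → rst d₀ D k' k = D k := fun h => if_pos h
  obtain ⟨β1, hβ1⟩ := hb fun k => (D k).2.1.1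
  obtain ⟨β, hβ, hmin⟩ := (wellFounded_lt (α := Ω)).has_min {β | ∀ k, (D k).2.1.1 < β}
    ⟨β1, hβ1⟩
  refine ⟨β, D, ⟨?_, hβ, ?_, ?_, ?_, ?_⟩, ?_⟩
  · intro k k' hk
    have h3 := (hG2 (rst d₀ D k') k).1
    rw [hrst hk] at h3
    have h4 : (D k').2.1.1 = G (rst d₀ D k') := by rw [hD k']
    rw [h4]
    exact h3
  · intro ξ hξ
    by_contra hcon
    push Not at hcon
    exact hmin ξ hcon hξ
  · intro k k'
    have h4 : (D k').2.1.1 = G (rst d₀ D k') := by rw [hD k']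
    have h5 : (D k).1 = x k := by rw [hD k]
    rw [h5, h4]
    have h6 : b k ≤ G (rst d₀ D k') := (hγ₀ k).le.trans (hG1 _)
    exact Supp.mono (T := {i : Ix Ω Λ | Ix.rk i < (G (rst d₀ D k') : WithBot Ω)})
      (fun i (hi : Ix.rk i < (b k : WithBot Ω)) => lt_of_lt_of_le hi (WithBot.coe_le_coe.2 h6))
      (hbx k)
  · intro k
    obtain ⟨k', hk'⟩ := hK2 k
    have h3 := (hG2 (rst d₀ D k') k).2
    rw [hrst hk'] at h3
    have h4 : (D k').2.1.1 = G (rst d₀ D k') := by rw [hD k']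
    rw [← h4] at h3
    exact h3.mono fun i hi => lt_trans hi (WithBot.coe_lt_coe.2 (hβ k'))
  · intro k
    rw [hD k]
  · intro k
    rw [hD k]
    exact ⟨rfl, rfl⟩

theorem book2 (h : S_CARD2) : S_BOOK := by
  obtain ⟨K, Ω, Λ, _, _, _, _, hne, hunc, hK1, hK2, hb, ⟨kl, hkl⟩, hF, ⟨e, he⟩,
    ⟨code, hcode⟩⟩ := h
  obtain ⟨ω⟩ := hne
  have : Nonempty Ω := ⟨ω⟩
  obtain ⟨k₁⟩ : Nonempty K := inferInstance
  let d₀ : Dat K Ω Λ := (fun _ _ => none, (ω, kl k₁), fun _ _ => none)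
  refine ⟨K, Λ, Ω, Ω × Λ, Λ ⊕ K, Ix Ω Λ, WithBot Ω, inferInstance, inferInstance, inferInstance,
    inferInstance, inferInstance, Ix.rs, GB d₀ e code, Ix.lz, kl, Ix.dm,
    fun z => Ix.co z.1 z.2, good hK1 hK2 hcode, ?_, fun _ => rfl, hkl, hunc, hF, fun _ h => h,
    ?_, ?_⟩
  · intro l l' h
    exact Ix.lz.inj h
  · intro x
    obtain ⟨β₀, hβ₀⟩ := supp_bdd hb x
    refine ⟨β₀, fun β hβ => ?_⟩
    obtain ⟨a, rfl⟩ := he x
    refine ⟨Sum.inl a, ?_⟩
    have h1 : Supp {i : Ix Ω Λ | Ix.rk i < (β : WithBot Ω)} (e a) :=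
      hβ₀.mono fun i hi => lt_of_lt_of_le hi (WithBot.coe_le_coe.2 hβ)
    show reqB d₀ e code (.dm β) (.inl a) = _
    simp only [reqB]
    rw [if_pos h1]
  · intro x E
    obtain ⟨β, D, hv, hD⟩ := exists_data hb hK2 d₀ code x E
    refine ⟨.sl β (code (none, D)), fun k => ⟨.inr k, (D k).2.1, ?_⟩⟩
    show reqB d₀ e code (.sl β (code (none, D))) (.inr k) = _
    rw [req_valid hcode hv k, (hD k).1, (hD k).2]

end Pool.Agent.W152.CF
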