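import Pool.Agent.W684.CF.BookStm

/-!
# Bookkeeping: the cardinalities which are needed, with a nonempty index set
-/

set_option autoImplicit false

namespace Pool.Agent.W152.CF

open Pool.Agent.W684.CF

/-- `S_CARD` with the additional clause that `Ω` is nonempty -/
def S_CARD2 : Prop :=
  ∃ (K Ω Λ : Type) (_ : LinearOrder K) (_ : WellFoundedLT K) (_ : LinearOrder Ω)
    (_ : WellFoundedLT Ω), Nonempty Ω ∧
    Uncountable K ∧ (∀ k : K, (Set.Iio k).Countable) ∧ (∀ k : K, ∃ k', k < k') ∧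
    (∀ f : K → Ω, ∃ β, ∀ k, f k < β) ∧ (∃ kl : K → Λ, Function.Injective kl) ∧
    (∀ F : Λ → Ω × ℕ, ∃ z, ¬ (F ⁻¹' {z}).Countable) ∧
    (∃ e : Λ → NmI K Ω Λ, Function.Surjective e) ∧
    (∃ code : Option K × (K → NmI K Ω Λ × (Ω × Λ) × NmI K Ω Λ) → Λ, Function.Injective code)

end Pool.Agent.W152.CF
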